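import Pool.Agent.T9h21.DP.Spec3

/-!
# Piece (u7): exact formulas of Gurevich and Shelah for the tours through a set
-/

open Finset
open scoped ENNReal

set_option autoImplicit false

namespace Pool.Agent.T9h77.DP

open Pool.Agent.T9h48.SC Pool.Agent.T9h48.TSP Pool.Agent.T9h21.DP

variable {V : Type} [DecidableEq V]

/-- weight of a path -/
noncomputable def wl (w : V × V → ℝ≥0∞) : List V → ℝ≥0∞
  | [] => 0
  | [_] => 0
  | a :: b :: l => w (a, b) + wl w (b :: l)

/-- `l` is a path from `u` to `v` through `A` -/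
def IsP (A : Finset V) (u v : V) (l : List V) : Prop :=
  l.Nodup ∧ l.toFinset = A ∧ l.head? = some u ∧ l.getLast? = some v

/-- `F` is the length of a shortest path from `u` to `v` through `A` -/
def Ex (A : Finset V) (u v : V) (F : Fm (V × V)) : Prop :=
  ∀ w : V × V → ℝ≥0∞, (∀ l, IsP A u v l → F.eval w ≤ wl w l) ∧
    (F.eval w ≠ ⊤ → ∃ l, IsP A u v l ∧ wl w l ≤ F.eval w)

omit [DecidableEq V] in
lemma wl_append (w : V × V → ℝ≥0∞) (l₁ l₂ : List V) (x y : V) :
    wl w (l₁ ++ [x] ++ y :: l₂) = wl w (l₁ ++ [x]) + w (x, y) + wl w (y :: l₂) := by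
  induction l₁ with
  | nil => simp [wl]
  | cons a l₁ ih =>
    cases l₁ with
    | nil => simp [wl, add_assoc]
    | cons b l₁ =>
      simp only [List.cons_append, wl] at ih ⊢
      rw [ih]
      ring

lemma isP_append (w : V × V → ℝ≥0∞) {A₁ A₂ : Finset V} {u x y v : V} {l₁ l₂ : List V}
    (h₁ : IsP A₁ u x l₁) (h₂ : IsP A₂ y v l₂) (hd : Disjoint A₁ A₂) :
    IsP (A₁ ∪ A₂) u v (l₁ ++ l₂) ∧ wl w (l₁ ++ l₂) = wl w l₁ + w (x, y) + wl w l₂ := by
  obtain ⟨n1, t1, f1, g1⟩ := h₁
  obtain ⟨n2, t2, f2, g2⟩ := h₂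
  refine ⟨⟨?_, ?_, ?_, ?_⟩, ?_⟩
  · rw [List.nodup_append]
    refine ⟨n1, n2, ?_⟩
    intro a ha b hb hab
    subst hab
    have h1 : a ∈ A₁ := by rw [← t1]; exact List.mem_toFinset.mpr ha
    have h2 : a ∈ A₂ := by rw [← t2]; exact List.mem_toFinset.mpr hb
    exact (Finset.disjoint_left.mp hd h1) h2
  · rw [List.toFinset_append, t1, t2]
  · rw [List.head?_append, f1]
    rfl
  · rw [List.getLast?_append, g2]
    rfl
  · obtain ⟨l₁', rfl⟩ : ∃ l', l₁ = l' ++ [x] := by
      obtain ⟨ys, hy⟩ := List.getLast?_eq_some_iff.mp g1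
      exact ⟨ys, hy⟩
    obtain ⟨l₂', rfl⟩ : ∃ l', l₂ = y :: l' := List.head?_eq_some_iff.mp f2
    exact wl_append w l₁' l₂' x y

lemma isP_split {A : Finset V} {u v : V} {l : List V} (h : IsP A u v l) (a : ℕ) (ha : 1 ≤ a)
    (ha' : a < A.card) : ∃ A₁ ⊆ A, A₁.card = a ∧ ∃ x ∈ A, ∃ y ∈ A, ∃ l₁ l₂ : List V,
      IsP A₁ u x l₁ ∧ IsP (A \ A₁) y v l₂ ∧ l = l₁ ++ l₂ := by
  obtain ⟨n1, t1, f1, g1⟩ := h
  have hlen : l.length = A.card := by rw [← t1, List.toFinset_card_of_nodup n1]
  have hl : l.take a ++ l.drop a = l := List.take_append_drop a l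
  have hn : (l.take a ++ l.drop a).Nodup := by rw [hl]; exact n1
  rw [List.nodup_append] at hn
  obtain ⟨m1, m2, m3⟩ := hn
  have hlt : (l.take a).length = a := by rw [List.length_take]; omega
  have hld : (l.drop a).length = A.card - a := by rw [List.length_drop, hlen]
  have hne1 : l.take a ≠ [] := by
    intro h0
    rw [h0] at hlt
    simp at hlt
    omega
  have hne2 : l.drop a ≠ [] := by
    intro h0
    rw [h0] at hld
    simp at hld
    omega
  have hsub : (l.take a).toFinset ⊆ A := by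
    rw [← t1]
    intro z hz
    rw [List.mem_toFinset] at hz ⊢
    exact List.mem_of_mem_take hz
  have hdiff : (l.drop a).toFinset = A \ (l.take a).toFinset := by
    ext z
    rw [Finset.mem_sdiff, ← t1, List.mem_toFinset, List.mem_toFinset, List.mem_toFinset]
    constructor
    · intro hz
      refine ⟨List.mem_of_mem_drop hz, fun hz' => m3 z hz' z hz rfl⟩
    · rintro ⟨h1, h2⟩
      rw [← hl, List.mem_append] at h1
      exact h1.resolve_left h2
  refine ⟨(l.take a).toFinset, hsub, ?_, (l.take a).getLast hne1, ?_, (l.drop a).head hne2, ?_,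
    l.take a, l.drop a, ⟨m1, rfl, ?_, ?_⟩, ⟨m2, hdiff, ?_, ?_⟩, hl.symm⟩
  · rw [List.toFinset_card_of_nodup m1, hlt]
  · exact hsub (List.mem_toFinset.mpr (List.getLast_mem hne1))
  · have : (l.drop a).head hne2 ∈ (l.drop a).toFinset := List.mem_toFinset.mpr (List.head_mem hne2)
    rw [hdiff] at this
    exact (Finset.mem_sdiff.mp this).1
  · rw [← f1]
    conv_rhs => rw [← hl]
    rw [List.head?_append_of_ne_nil _ hne1]
  · exact List.getLast?_eq_some_getLast hne1
  · exact List.head?_eq_some_head hne2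
  · rw [← g1]
    conv_rhs => rw [← hl]
    rw [List.getLast?_append_of_ne_nil _ hne2]

lemma base (A : Finset V) (hA : A.card ≤ 1) (u v : V) : ∃ F : Fm (V × V), Ex A u v F ∧ F.adds = 0 := by
  classical
  by_cases h : u = v ∧ u ∈ A
  · obtain ⟨rfl, hu⟩ := h
    refine ⟨.const 0, fun w => ⟨fun l _ => ?_, fun _ => ?_⟩, rfl⟩
    · simp [Fm.eval]
    · refine ⟨[u], ⟨by simp, ?_, rfl, rfl⟩, by simp [wl]⟩
      ext z
      simp only [List.toFinset_cons, List.toFinset_nil, insert_empty_eq, Finset.mem_singleton]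
      constructor
      · rintro rfl
        exact hu
      · intro hz
        exact Finset.card_le_one.mp hA z hz u hu
  · refine ⟨.const ⊤, fun w => ⟨fun l hl => ?_, fun h' => ?_⟩, rfl⟩
    · exfalso
      obtain ⟨n1, t1, f1, g1⟩ := hl
      have hlen : l.length = A.card := by rw [← t1, List.toFinset_card_of_nodup n1]
      match l, hlen, t1, f1, g1 with
      | [], _, _, f1, _ => simp at f1
      | [x], _, t1, f1, g1 =>
        simp at f1 g1
        apply h
        refine ⟨by rw [← f1, ← g1], ?_⟩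
        rw [← t1, ← f1]
        simp
      | x :: y :: l', hlen, _, _, _ =>
        simp at hlen
        omega
    · simp [Fm.eval] at h'

lemma step [Fintype V] (hfam : U_fam) (k b : ℕ)
    (ih : ∀ B : Finset V, B.card ≤ 2 ^ k → ∀ u v, ∃ F, Ex B u v F ∧ F.adds ≤ b)
    (A : Finset V) (hA : A.card ≤ 2 ^ (k + 1)) (u v : V) :
    ∃ F, Ex A u v F ∧ F.adds ≤ 2 ^ 2 ^ (k + 1) * Fintype.card V ^ 2 * (2 * b + 2) := by
  rcases Nat.lt_or_ge 1 A.card with h1 | h1
  swap
  · obtain ⟨F, h, h'⟩ := base A h1 u v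
    exact ⟨F, h, by rw [h']; exact Nat.zero_le _⟩
  have hex : ∀ B : Finset V, ∀ u v, ∃ F : Fm (V × V), (B.card ≤ 2 ^ k → Ex B u v F) ∧ F.adds ≤ b := by
    intro B u v
    by_cases hB : B.card ≤ 2 ^ k
    · obtain ⟨F, h, h'⟩ := ih B hB u v
      exact ⟨F, fun _ => h, h'⟩
    · exact ⟨.const 0, fun h => absurd h hB, Nat.zero_le _⟩
  choose f hf hfb using hex
  have ha : A.card / 2 ≤ 2 ^ k := by
    rw [pow_succ] at hA
    omega
  have ha' : A.card - A.card / 2 ≤ 2 ^ k := by
    rw [pow_succ] at hA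
    omega
  let s : Finset (Finset V × V × V) := (A.powersetCard (A.card / 2)) ×ˢ (A ×ˢ A)
  let F' : Finset V × V × V → Fm (V × V) := fun i =>
    .add (.add (f i.1 u i.2.1) (.var (i.2.1, i.2.2))) (f (A \ i.1) i.2.2 v)
  obtain ⟨F, hF, hFe⟩ := (hfam (V × V) _ s F').1
  refine ⟨F, fun w => ⟨fun l hl => ?_, fun htop => ?_⟩, ?_⟩
  · obtain ⟨A₁, hA₁, hc, x, hx, y, hy, l₁, l₂, h₁, h₂, rfl⟩ := isP_split hl (A.card / 2) (by omega)
      (by omega)
    rw [hFe]
    have hi : (A₁, x, y) ∈ s := by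
      simp only [s, Finset.mem_product, Finset.mem_powersetCard]
      exact ⟨⟨hA₁, hc⟩, hx, hy⟩
    refine (Finset.inf_le hi).trans ?_
    have hc1 : A₁.card ≤ 2 ^ k := by rw [hc]; exact ha
    have hc2 : (A \ A₁).card ≤ 2 ^ k := by
      rw [Finset.card_sdiff_of_subset hA₁, hc]
      exact ha'
    have e1 := (hf A₁ u x hc1 w).1 l₁ h₁
    have e2 := (hf (A \ A₁) y v hc2 w).1 l₂ h₂
    rw [(isP_append w h₁ h₂ Finset.disjoint_sdiff).2]
    exact add_le_add (add_le_add e1 le_rfl) e2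
  · have hne : s.Nonempty := by
      obtain ⟨A₁, hA₁⟩ : (A.powersetCard (A.card / 2)).Nonempty := by
        rw [Finset.powersetCard_nonempty]
        omega
      obtain ⟨x, hx⟩ := Finset.card_pos.mp (lt_trans Nat.zero_lt_one h1)
      exact ⟨(A₁, x, x), by simp only [s, Finset.mem_product]; exact ⟨hA₁, hx, hx⟩⟩
    obtain ⟨⟨A₁, x, y⟩, hi, he⟩ := Finset.exists_mem_eq_inf s hne (fun i => (F' i).eval w)
    rw [hFe, he] at htop
    rw [hFe, he]
    simp only [s, Finset.mem_product, Finset.mem_powersetCard] at hi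
    obtain ⟨⟨hA₁, hc⟩, hx, hy⟩ := hi
    have hc1 : A₁.card ≤ 2 ^ k := by rw [hc]; exact ha
    have hc2 : (A \ A₁).card ≤ 2 ^ k := by
      rw [Finset.card_sdiff_of_subset hA₁, hc]
      exact ha'
    have htop' : (f A₁ u x).eval w + w (x, y) + (f (A \ A₁) y v).eval w ≠ ⊤ := htop
    rw [ENNReal.add_ne_top, ENNReal.add_ne_top] at htop'
    obtain ⟨⟨q1, _⟩, q2⟩ := htop'
    obtain ⟨l₁, h₁, e1⟩ := (hf A₁ u x hc1 w).2 q1
    obtain ⟨l₂, h₂, e2⟩ := (hf (A \ A₁) y v hc2 w).2 q2
    have h3 := isP_append w h₁ h₂ Finset.disjoint_sdiff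
    refine ⟨l₁ ++ l₂, ?_, ?_⟩
    · have := h3.1
      rwa [Finset.union_sdiff_of_subset hA₁] at this
    · rw [h3.2]
      exact add_le_add (add_le_add e1 le_rfl) e2
  · refine hF.trans ?_
    have hb : ∀ i ∈ s, (F' i).adds ≤ 2 * b + 2 := by
      intro i _
      have e1 := hfb i.1 u i.2.1
      have e2 := hfb (A \ i.1) i.2.2 v
      simp only [F', Fm.adds]
      omega
    refine (Finset.sum_le_card_nsmul s _ _ hb).trans ?_
    rw [smul_eq_mul]
    apply Nat.mul_le_mul_right
    simp only [s, Finset.card_product, Finset.card_powersetCard]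
    have c1 : A.card.choose (A.card / 2) ≤ 2 ^ 2 ^ (k + 1) :=
      (Nat.choose_le_two_pow _ _).trans (Nat.pow_le_pow_right (by norm_num) hA)
    have c2 : A.card ≤ Fintype.card V := Finset.card_le_univ A
    rw [pow_two]
    exact Nat.mul_le_mul c1 (Nat.mul_le_mul c2 c2)

lemma all [Fintype V] (hfam : U_fam) (k : ℕ) : ∀ A : Finset V, A.card ≤ 2 ^ k → ∀ u v,
    ∃ F, Ex A u v F ∧ F.adds + 1 ≤ 2 ^ (2 * 2 ^ k) * (4 * Fintype.card V ^ 2) ^ k := by
  induction k with
  | zero =>
    intro A hA u v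
    obtain ⟨F, h, h'⟩ := base A (by simpa using hA) u v
    exact ⟨F, h, by rw [h']; norm_num⟩
  | succ k ih =>
    intro A hA u v
    set U := 2 ^ (2 * 2 ^ k) * (4 * Fintype.card V ^ 2) ^ k with hU
    obtain ⟨F, h, h'⟩ := step hfam k (U - 1)
      (fun B hB u v => by
        obtain ⟨F, h, h'⟩ := ih B hB u v
        exact ⟨F, h, by omega⟩) A hA u v
    refine ⟨F, h, ?_⟩
    have hV : 1 ≤ Fintype.card V := Fintype.card_pos_iff.mpr ⟨u⟩
    have hU1 : 1 ≤ U := Nat.one_le_iff_ne_zero.mpr (by positivity)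
    have e1 : 2 * (U - 1) + 2 = 2 * U := by omega
    rw [e1] at h'
    have e2 : 1 ≤ 2 ^ 2 ^ (k + 1) * Fintype.card V ^ 2 * (2 * U) :=
      Nat.one_le_iff_ne_zero.mpr (by positivity)
    have e3 : 2 ^ (2 * 2 ^ (k + 1)) * (4 * Fintype.card V ^ 2) ^ (k + 1) =
        2 * (2 ^ 2 ^ (k + 1) * Fintype.card V ^ 2 * (2 * U)) := by
      rw [hU]
      have : 2 * 2 ^ (k + 1) = 2 ^ (k + 1) + 2 * 2 ^ k := by ring
      rw [this, pow_add, pow_succ (4 * Fintype.card V ^ 2) k]
      ring
    rw [e3]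
    omega

lemma closed {n : ℕ} (p : Fin n → ℤ × ℤ) (u v : Fin n) (l : List (Fin n)) : ∀ a : Fin n,
    (a :: l).getLast? = some v → wl (dists p) (a :: l) + dists p (v, u) = ENNReal.ofReal
      (List.zipWith (fun x y => eucl (p x) (p y)) (a :: l) (l ++ [u])).sum ∧
      0 ≤ (List.zipWith (fun x y => eucl (p x) (p y)) (a :: l) (l ++ [u])).sum := by
  induction l with
  | nil =>
    intro a ha
    simp at ha
    subst ha
    simp [wl, dists, eucl_nonneg]
  | cons b l ih =>
    intro a ha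
    have hb : (b :: l).getLast? = some v := by
      rw [List.getLast?_cons_cons] at ha
      exact ha
    obtain ⟨e1, e2⟩ := ih b hb
    have h3 := eucl_nonneg (p a) (p b)
    simp only [List.cons_append, List.zipWith_cons_cons, List.sum_cons]
    refine ⟨?_, by linarith⟩
    rw [ENNReal.ofReal_add h3 e2]
    simp only [wl]
    rw [add_assoc, e1]
    rfl

lemma clen_eq {n : ℕ} (p : Fin n → ℤ × ℤ) (u v : Fin n) (l : List (Fin n))
    (h1 : l.head? = some u) (h2 : l.getLast? = some v) :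
    wl (dists p) l + dists p (v, u) = ENNReal.ofReal (clen p l) ∧ 0 ≤ clen p l := by
  obtain ⟨l', rfl⟩ : ∃ l', l = u :: l' := List.head?_eq_some_iff.mp h1
  have h := closed p u v l' u h2
  have hr : (u :: l').rotate 1 = l' ++ [u] := by simp
  unfold clen
  rw [hr]
  exact h

theorem uExact' (hfam : U_fam) : U_exact := by
  refine ⟨20, by norm_num, fun n A hn hA => ?_⟩
  have hn1 : 1 ≤ n := by omega
  have hAc : 1 ≤ A.card := Finset.card_pos.mpr hA
  have hAn : A.card ≤ n := by simpa using Finset.card_le_univ A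
  obtain ⟨k, hk1, hk2⟩ : ∃ k, A.card ≤ 2 ^ k ∧ 2 ^ k ≤ 2 * A.card := by
    refine ⟨Nat.clog 2 A.card, Nat.le_pow_clog (by norm_num) _, ?_⟩
    rcases Nat.lt_or_ge 1 A.card with h | h
    · have h1 := Nat.pow_pred_clog_lt_self (by norm_num : 1 < 2) h
      have h2 : 0 < Nat.clog 2 A.card := Nat.clog_pos (by norm_num) h
      obtain ⟨c, hc⟩ := Nat.exists_eq_succ_of_ne_zero h2.ne'
      rw [hc] at h1 ⊢
      rw [Nat.pred_succ] at h1
      rw [Nat.succ_eq_add_one, pow_succ]
      omega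
    · have : A.card = 1 := by omega
      rw [this]
      simp
  set U := 2 ^ (2 * 2 ^ k) * (4 * Fintype.card (Fin n) ^ 2) ^ k with hU
  have hex := all (V := Fin n) hfam k A hk1
  choose f hf hfb using hex
  let s : Finset (Fin n × Fin n) := A ×ˢ A
  let F' : Fin n × Fin n → Fm (Fin n × Fin n) := fun i => .add (f i.1 i.2) (.var (i.2, i.1))
  obtain ⟨F, hF, hFe⟩ := (hfam (Fin n × Fin n) _ s F').1
  refine ⟨F, fun p => ⟨?_, fun r hr hT => ?_⟩, ?_⟩
  · obtain ⟨a, ha⟩ := hA
    have hne : s.Nonempty := ⟨(a, a), by simp [s, ha]⟩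
    obtain ⟨⟨u, v⟩, hi, he⟩ := Finset.exists_mem_eq_inf s hne (fun i => (F' i).eval (dists p))
    rw [hFe, he]
    have hev : (F' (u, v)).eval (dists p) = (f u v).eval (dists p) + dists p (v, u) := rfl
    rw [hev]
    by_cases htop : (f u v).eval (dists p) = ⊤
    · rw [htop, top_add]
      have hl : A.toList ≠ [] := by
        intro h0
        have h1 : a ∈ A.toList := Finset.mem_toList.mpr ha
        rw [h0] at h1
        simp at h1
      have h1 := clen_eq p (A.toList.head hl) (A.toList.getLast hl) A.toList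
        (List.head?_eq_some_head hl) (List.getLast?_eq_some_getLast hl)
      exact ⟨clen p A.toList, h1.2, ⟨A.toList, A.nodup_toList, A.toList_toFinset, le_rfl⟩, le_top⟩
    · obtain ⟨l, hl, hle⟩ := (hf u v (dists p)).2 htop
      have h1 := clen_eq p u v l hl.2.2.1 hl.2.2.2
      refine ⟨clen p l, h1.2, ⟨l, hl.1, hl.2.1, le_rfl⟩, ?_⟩
      rw [← h1.1]
      exact add_le_add hle le_rfl
  · obtain ⟨l, hl1, hl2, hl3⟩ := hT
    have hne : l ≠ [] := by
      rintro rfl
      simp at hl2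
      rw [← hl2] at hA
      simp at hA
    have hu := List.head?_eq_some_head hne
    have hv := List.getLast?_eq_some_getLast hne
    have h1 := clen_eq p _ _ l hu hv
    have hmem1 : l.head hne ∈ A := by rw [← hl2]; exact List.mem_toFinset.mpr (List.head_mem hne)
    have hmem2 : l.getLast hne ∈ A := by
      rw [← hl2]; exact List.mem_toFinset.mpr (List.getLast_mem hne)
    rw [hFe, one_mul]
    have hi : (l.head hne, l.getLast hne) ∈ s := by
      simp only [s, Finset.mem_product]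
      exact ⟨hmem1, hmem2⟩
    refine (Finset.inf_le hi).trans ?_
    have h2 : (f (l.head hne) (l.getLast hne)).eval (dists p) ≤ wl (dists p) l :=
      (hf _ _ (dists p)).1 l ⟨hl1, hl2, hu, hv⟩
    refine (add_le_add h2 le_rfl).trans ?_
    have h3 : wl (dists p) l + (Fm.var (l.getLast hne, l.head hne)).eval (dists p) =
        ENNReal.ofReal (clen p l) := h1.1
    show wl (dists p) l + (Fm.var (l.getLast hne, l.head hne)).eval (dists p) ≤ _
    rw [h3]
    exact ENNReal.ofReal_le_ofReal hl3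
  · have h1 : F.adds ≤ n ^ 2 * U := by
      refine hF.trans ?_
      refine (Finset.sum_le_card_nsmul s _ U (fun i _ => ?_)).trans ?_
      · have := hfb i.1 i.2
        simp only [F', Fm.adds]
        omega
      · rw [smul_eq_mul]
        apply Nat.mul_le_mul_right
        simp only [s, Finset.card_product]
        rw [pow_two]
        exact Nat.mul_le_mul hAn hAn
    have h2 : (F.adds : ℝ) ≤ (n : ℝ) ^ 2 * (2 ^ (2 * 2 ^ k) * (4 * (n : ℝ) ^ 2) ^ k) := by
      have : (F.adds : ℝ) ≤ ((n ^ 2 * U : ℕ) : ℝ) := by exact_mod_cast h1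
      refine this.trans (le_of_eq ?_)
      rw [hU]
      push_cast
      simp
    refine h2.trans ?_
    have hnR : (2 : ℝ) ≤ n := by exact_mod_cast hn
    have hnp : (0 : ℝ) < n := by linarith
    set L := Real.log n with hL
    have hexpL : Real.exp L = n := Real.exp_log hnp
    have hlog2 : (1 / 2 : ℝ) ≤ Real.log 2 := by
      have := Real.log_two_gt_d9
      linarith
    have hL2 : Real.log 2 ≤ L := Real.log_le_log (by norm_num) hnR
    have hLh : (1 / 2 : ℝ) ≤ L := hlog2.trans hL2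
    have hk3 : (k : ℝ) ≤ 4 * L := by
      have h3 : ((2 : ℝ)) ^ k ≤ (n : ℝ) ^ 2 := by
        have h4 : 2 ^ k ≤ 2 * n := hk2.trans (by omega)
        have h5 : (2 : ℝ) ^ k ≤ 2 * n := by exact_mod_cast h4
        refine h5.trans ?_
        rw [pow_two]
        exact mul_le_mul_of_nonneg_right hnR hnp.le
      have h6 := Real.log_le_log (by positivity) h3
      rw [Real.log_pow, Real.log_pow] at h6
      push_cast at h6
      have hk0 : (0 : ℝ) ≤ k := Nat.cast_nonneg k
      have h7 : (k : ℝ) * (1 / 2) ≤ k * Real.log 2 := mul_le_mul_of_nonneg_left hlog2 hk0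
      rw [← hL] at h6
      linarith
    have e1 : (n : ℝ) ^ 2 = Real.exp (2 * L) := by
      rw [two_mul, Real.exp_add, hexpL, pow_two]
    have e2 : (2 : ℝ) ^ (2 * 2 ^ k) ≤ Real.exp (4 * A.card) := by
      have h3 : (2 : ℝ) ≤ Real.exp 1 := by
        have := Real.add_one_le_exp (1 : ℝ)
        linarith
      calc (2 : ℝ) ^ (2 * 2 ^ k) ≤ (Real.exp 1) ^ (2 * 2 ^ k) :=
            pow_le_pow_left₀ (by norm_num) h3 _
        _ = Real.exp ((2 * 2 ^ k : ℕ) : ℝ) := by rw [← Real.exp_nat_mul, mul_one]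
        _ ≤ Real.exp (4 * A.card) := by
          apply Real.exp_le_exp.mpr
          have h4 : 2 * 2 ^ k ≤ 4 * A.card := by omega
          exact_mod_cast h4
    have e3 : (4 * (n : ℝ) ^ 2) ^ k ≤ Real.exp (16 * L ^ 2) := by
      have h3 : 4 * (n : ℝ) ^ 2 ≤ Real.exp (4 * L) := by
        have h4 : Real.exp (4 * L) = (n : ℝ) ^ 2 * (n : ℝ) ^ 2 := by
          rw [e1, ← Real.exp_add]
          congr 1
          ring
        rw [h4]
        apply mul_le_mul_of_nonneg_right _ (by positivity)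
        nlinarith
      calc (4 * (n : ℝ) ^ 2) ^ k ≤ (Real.exp (4 * L)) ^ k :=
            pow_le_pow_left₀ (by positivity) h3 _
        _ = Real.exp (k * (4 * L)) := by rw [← Real.exp_nat_mul]
        _ ≤ Real.exp (16 * L ^ 2) := by
          apply Real.exp_le_exp.mpr
          have : (k : ℝ) * (4 * L) ≤ 4 * L * (4 * L) :=
            mul_le_mul_of_nonneg_right hk3 (by linarith)
          nlinarith
    calc (n : ℝ) ^ 2 * (2 ^ (2 * 2 ^ k) * (4 * (n : ℝ) ^ 2) ^ k)
        ≤ Real.exp (2 * L) * (Real.exp (4 * A.card) * Real.exp (16 * L ^ 2)) := by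
          rw [e1] at e3 ⊢
          exact mul_le_mul_of_nonneg_left (mul_le_mul e2 e3 (by positivity) (by positivity))
            (by positivity)
      _ = Real.exp (2 * L + (4 * A.card + 16 * L ^ 2)) := by
          rw [Real.exp_add, Real.exp_add]
      _ ≤ Real.exp (20 * (A.card + L ^ 2)) := by
          apply Real.exp_le_exp.mpr
          have h5 : (0 : ℝ) ≤ A.card := Nat.cast_nonneg _
          nlinarith

/-- (u7) -/
theorem uExact : U_fam → U_tour → U_exact := fun h _ => uExact' h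

end Pool.Agent.T9h77.DP
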