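import Pool.Agent.T9h21.DP.Spec3

/-!
# Piece (u6): one step of the recursion
-/

open Finset
open scoped ENNReal

set_option autoImplicit false

namespace Pool.Agent.T9h77.DP

open Pool.Agent.T9h48.SC Pool.Agent.T9h48.TSP Pool.Agent.T9h21.DP

/-- (u6) -/
theorem uStep : U_fam → U_tour → U_opt → U_step := by
  intro hfam htour hopt n A ρ s hA hρ ih
  classical
  obtain ⟨t_ins, t_del, -, -⟩ := htour
  obtain ⟨ℬ, hne, hcard, hB, hup⟩ := hopt n A hA
  have hex : ∀ B : Finset (Fin n), ∃ F : Fm (Fin n × Fin n), (B ∈ ℬ → Apx B ρ F) ∧ F.adds ≤ s := by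
    intro B
    by_cases h : B ∈ ℬ
    · obtain ⟨h1, h2, h3⟩ := hB B h
      obtain ⟨F, h4, h5⟩ := ih B h1 h2 h3
      exact ⟨F, fun _ => h4, h5⟩
    · exact ⟨.const 0, fun h' => absurd h' h, Nat.zero_le _⟩
  choose f hf hfb using hex
  have hH : ∀ (B : Finset (Fin n)) (v : Fin n), ∃ F : Fm (Fin n × Fin n), F.adds = 0 ∧
      ∀ w, F.eval w = B.inf fun u => w (v, u) := by
    intro B v
    obtain ⟨F, h1, h2⟩ := (hfam (Fin n × Fin n) (Fin n) B (fun u => .var (v, u))).1
    refine ⟨F, ?_, h2⟩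
    simpa [Fm.adds] using h1
  choose H hH0 hHe using hH
  have hG : ∀ B : Finset (Fin n), ∃ F : Fm (Fin n × Fin n), F.adds ≤ 2 * n ∧
      ∀ w, F.eval w = ∑ v ∈ A \ B, ((H B v).eval w + (H B v).eval w) := by
    intro B
    obtain ⟨F, h1, h2⟩ := (hfam (Fin n × Fin n) (Fin n) (A \ B) (fun v => .add (H B v) (H B v))).2
    refine ⟨F, h1.trans ?_, h2⟩
    have h3 : ∑ i ∈ A \ B, (Fm.add (H B i) (H B i)).adds = (A \ B).card := by
      simp [Fm.adds, hH0]
    rw [h3]
    have h4 : (A \ B).card ≤ n := by simpa using Finset.card_le_univ (A \ B)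
    omega
  choose G hG1 hGe using hG
  obtain ⟨F, hF, hFe⟩ := (hfam (Fin n × Fin n) (Finset (Fin n)) ℬ (fun B => .add (G B) (f B))).1
  refine ⟨F, fun p => ⟨?_, fun r hr hT => ?_⟩, ?_⟩
  · obtain ⟨B, hBm, he⟩ := Finset.exists_mem_eq_inf ℬ hne
      (fun B => (Fm.add (G B) (f B)).eval (dists p))
    rw [hFe, he]
    obtain ⟨hBA, hBne, -⟩ := hB B hBm
    obtain ⟨r', hr', hT', hle⟩ := (hf B hBm p).1
    have hg : ∀ v : Fin n, ∃ u ∈ B, (B.inf fun u => dists p (v, u)) = dists p (v, u) :=
      fun v => Finset.exists_mem_eq_inf B hBne (fun u => dists p (v, u))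
    choose g hgB hge using hg
    have key : ∀ S : Finset (Fin n), S ⊆ A \ B →
        Tour p (B ∪ S) (r' + ∑ v ∈ S, 2 * eucl (p v) (p (g v))) := by
      intro S
      induction S using Finset.induction_on with
      | empty =>
        intro _
        simpa using hT'
      | insert v S hv ihS =>
        intro hS
        have h1 : S ⊆ A \ B := fun x hx => hS (Finset.mem_insert_of_mem hx)
        have h2 : v ∉ B := (Finset.mem_sdiff.mp (hS (Finset.mem_insert_self v S))).2
        have h3 := t_ins n p (B ∪ S) _ (g v) v (Finset.mem_union_left _ (hgB v))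
          (by rw [Finset.mem_union]; exact fun h => h.elim h2 hv) (ihS h1)
        rw [Finset.union_insert, Finset.sum_insert hv]
        convert h3 using 1
        ring
    have h4 := key (A \ B) (Finset.Subset.refl _)
    rw [Finset.union_sdiff_of_subset hBA] at h4
    have hs0 : 0 ≤ ∑ v ∈ A \ B, 2 * eucl (p v) (p (g v)) :=
      Finset.sum_nonneg fun v _ => mul_nonneg (by norm_num) (eucl_nonneg _ _)
    refine ⟨_, add_nonneg hr' hs0, h4, ?_⟩
    rw [ENNReal.ofReal_add hr' hs0, add_comm]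
    show _ ≤ (G B).eval (dists p) + (f B).eval (dists p)
    refine add_le_add ?_ hle
    rw [hGe, ENNReal.ofReal_sum_of_nonneg
      (fun v _ => mul_nonneg (by norm_num) (eucl_nonneg _ _))]
    refine le_of_eq (Finset.sum_congr rfl fun v _ => ?_)
    rw [hHe, hge, two_mul, ENNReal.ofReal_add (eucl_nonneg _ _) (eucl_nonneg _ _)]
    rfl
  · obtain ⟨B, hBm, g, hg, hsum⟩ := hup p r hr hT
    obtain ⟨hBA, hBne, -⟩ := hB B hBm
    rw [hFe]
    refine (Finset.inf_le hBm).trans ?_
    show (G B).eval (dists p) + (f B).eval (dists p) ≤ _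
    have h1 : (f B).eval (dists p) ≤ ENNReal.ofReal (ρ * r) :=
      (hf B hBm p).2 r hr (t_del n p A B r hBA hT)
    have h2 : (G B).eval (dists p) ≤ ENNReal.ofReal (200 * r) := by
      rw [hGe]
      have h3 : ∀ v ∈ A \ B, (H B v).eval (dists p) + (H B v).eval (dists p) ≤
          ENNReal.ofReal (2 * eucl (p v) (p (g v))) := by
        intro v _
        have h4 : (H B v).eval (dists p) ≤ ENNReal.ofReal (eucl (p v) (p (g v))) := by
          rw [hHe]
          exact Finset.inf_le (f := fun u => dists p (v, u)) (hg v)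
        rw [two_mul, ENNReal.ofReal_add (eucl_nonneg _ _) (eucl_nonneg _ _)]
        exact add_le_add h4 h4
      refine (Finset.sum_le_sum h3).trans ?_
      rw [← ENNReal.ofReal_sum_of_nonneg
        (fun v _ => mul_nonneg (by norm_num) (eucl_nonneg _ _)), ← Finset.mul_sum]
      apply ENNReal.ofReal_le_ofReal
      linarith
    refine (add_le_add h2 h1).trans ?_
    rw [← ENNReal.ofReal_add (by positivity) (by positivity)]
    apply le_of_eq
    congr 1
    ring
  · refine hF.trans ?_
    have hb : ∀ B ∈ ℬ, (Fm.add (G B) (f B)).adds ≤ 2 * n + 2 + s := by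
      intro B _
      have e1 := hG1 B
      have e2 := hfb B
      simp only [Fm.adds]
      omega
    refine (Finset.sum_le_card_nsmul ℬ _ _ hb).trans ?_
    rw [smul_eq_mul]
    exact Nat.mul_le_mul_right _ hcard

end Pool.Agent.T9h77.DP
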